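import Mathlib

/-!
# An everywhere divergent trigonometric series with coefficients in every `ℓ^p`, `p > 2`

Orlicz's question has a positive answer, with an explicit series: the coefficients are
`O(n^{-1/2})`, the signs are those of the Rudin-Shapiro polynomials.

For `|z| = 1` the Rudin-Shapiro polynomials `P_m, Q_m` (with `2^m` coefficients `±1`) satisfy
`|P_m|^2 + |Q_m|^2 = 2^{m+1}`, so at every point one of them is at least `2^{m/2}` in modulus. To
have a *real* block sum that is large, each of the two polynomials is used three times, on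
consecutive frequency intervals of length `L = 2^m`: twice in cosines and once in sines. If
`u = z^M P_m(z)` and `w = z^L`, the three block sums are `Re u`, `Re (w u)` and `Im (w^2 u)`, and
`Im u = Im (w^2 u) - 2 (Im w) Re (w u)`, so that one of the three is at least `|u| / √10`.
-/

namespace Pool.Agent.Results.MP_85199e_an.EverywhereDivergent

open Filter Finset Topology

/-- Rudin-Shapiro pairs. -/
lemma rs (m : ℕ) : ∃ p q : ℕ → ℝ, (∀ k, |p k| ≤ 1) ∧ (∀ k, |q k| ≤ 1) ∧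
    ∀ z : ℂ, ‖z‖ = 1 →
      ‖∑ k ∈ range (2 ^ m), (p k : ℂ) * z ^ k‖ ^ 2 +
        ‖∑ k ∈ range (2 ^ m), (q k : ℂ) * z ^ k‖ ^ 2 = 2 ^ (m + 1) := by
  induction m with
  | zero => exact ⟨fun _ => 1, fun _ => 1, by simp, by simp, fun z hz => by norm_num⟩
  | succ m ih =>
    obtain ⟨p, q, hp, hq, h⟩ := ih
    refine ⟨fun k => if k < 2 ^ m then p k else q (k - 2 ^ m),
      fun k => if k < 2 ^ m then p k else - q (k - 2 ^ m), ?_, ?_, ?_⟩
    · intro k
      dsimp only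
      split_ifs
      · exact hp k
      · exact hq _
    · intro k
      dsimp only
      split_ifs
      · exact hp k
      · rw [abs_neg]; exact hq _
    · intro z hz
      have e1 : ∑ k ∈ range (2 ^ (m + 1)),
          (((if k < 2 ^ m then p k else q (k - 2 ^ m)) : ℝ) : ℂ) * z ^ k =
          ∑ k ∈ range (2 ^ m), (p k : ℂ) * z ^ k +
            z ^ (2 ^ m) * ∑ k ∈ range (2 ^ m), (q k : ℂ) * z ^ k := by
        rw [pow_succ, mul_two, Finset.sum_range_add, Finset.mul_sum]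
        congr 1
        · apply Finset.sum_congr rfl
          intro k hk
          rw [if_pos (Finset.mem_range.mp hk)]
        · apply Finset.sum_congr rfl
          intro k hk
          rw [if_neg (by omega), Nat.add_sub_cancel_left, pow_add]
          ring
      have e2 : ∑ k ∈ range (2 ^ (m + 1)),
          (((if k < 2 ^ m then p k else - q (k - 2 ^ m)) : ℝ) : ℂ) * z ^ k =
          ∑ k ∈ range (2 ^ m), (p k : ℂ) * z ^ k -
            z ^ (2 ^ m) * ∑ k ∈ range (2 ^ m), (q k : ℂ) * z ^ k := by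
        rw [pow_succ, mul_two, Finset.sum_range_add, Finset.mul_sum, sub_eq_add_neg,
          ← Finset.sum_neg_distrib]
        congr 1
        · apply Finset.sum_congr rfl
          intro k hk
          rw [if_pos (Finset.mem_range.mp hk)]
        · apply Finset.sum_congr rfl
          intro k hk
          rw [if_neg (by omega), Nat.add_sub_cancel_left, pow_add]
          push_cast
          ring
      dsimp only
      rw [e1, e2]
      have par := parallelogram_law_with_norm ℝ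
        (∑ k ∈ range (2 ^ m), (p k : ℂ) * z ^ k)
        (z ^ (2 ^ m) * ∑ k ∈ range (2 ^ m), (q k : ℂ) * z ^ k)
      have hn : ‖z ^ (2 ^ m) * ∑ k ∈ range (2 ^ m), (q k : ℂ) * z ^ k‖ =
          ‖∑ k ∈ range (2 ^ m), (q k : ℂ) * z ^ k‖ := by
        rw [norm_mul, norm_pow, hz, one_pow, one_mul]
      rw [hn] at par
      have hh := h z hz
      rw [pow_succ (2 : ℝ) (m + 1), ← hh]
      nlinarith [par]

/-- The three real block sums control the modulus. -/
lemma key (u w : ℂ) (hw : ‖w‖ = 1) (d : ℝ) (h1 : |u.re| ≤ d) (h2 : |(w * u).re| ≤ d)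
    (h3 : |(w ^ 2 * u).im| ≤ d) : ‖u‖ ^ 2 ≤ 10 * d ^ 2 := by
  have hd : 0 ≤ d := le_trans (abs_nonneg _) h1
  have hcs : w.re ^ 2 + w.im ^ 2 = 1 := by
    have := Complex.sq_norm w
    rw [hw, Complex.normSq_apply] at this
    nlinarith
  have hs : |w.im| ≤ 1 := by
    rw [← hw]; exact Complex.abs_im_le_norm w
  have e : u.im = (w ^ 2 * u).im - 2 * w.im * (w * u).re := by
    have h4 : u.im = (w.re ^ 2 + w.im ^ 2) * u.im := by rw [hcs, one_mul]
    rw [h4]
    simp only [pow_two, Complex.mul_im, Complex.mul_re]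
    ring
  have hb : |u.im| ≤ 3 * d := by
    rw [e]
    calc |(w ^ 2 * u).im - 2 * w.im * (w * u).re|
        ≤ |(w ^ 2 * u).im| + |2 * w.im * (w * u).re| := abs_sub _ _
      _ ≤ d + 2 * (1 * d) := by
          have : |2 * w.im * (w * u).re| = 2 * (|w.im| * |(w * u).re|) := by
            rw [abs_mul, abs_mul, abs_two, mul_assoc]
          rw [this]
          have := mul_le_mul hs h2 (abs_nonneg _) zero_le_one
          linarith
      _ = 3 * d := by ring
  rw [Complex.sq_norm, Complex.normSq_apply]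
  have h5 : u.re * u.re ≤ d * d := by
    rw [← abs_mul_abs_self]; exact mul_self_le_mul_self (abs_nonneg _) h1
  have h6 : u.im * u.im ≤ (3 * d) * (3 * d) := by
    rw [← abs_mul_abs_self u.im]; exact mul_self_le_mul_self (abs_nonneg _) hb
  nlinarith

/-- partial sums of the trigonometric series -/
noncomputable def S (a b : ℕ → ℝ) (N : ℕ) (x : ℝ) : ℝ :=
  ∑ n ∈ Finset.Icc 1 N, (a n * Real.cos (n * x) + b n * Real.sin (n * x))

lemma S_sub (a b : ℕ → ℝ) (M L : ℕ) (hM : 1 ≤ M) (x : ℝ) :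
    S a b (M + L - 1) x - S a b (M - 1) x =
      ∑ k ∈ range L, (a (M + k) * Real.cos ((M + k : ℕ) * x) +
        b (M + k) * Real.sin ((M + k : ℕ) * x)) := by
  unfold S
  have h1 : Finset.Icc 1 (M + L - 1) = Finset.Ico 1 (M + L) := by
    ext n; simp only [Finset.mem_Icc, Finset.mem_Ico]; omega
  have h2 : Finset.Icc 1 (M - 1) = Finset.Ico 1 M := by
    ext n; simp only [Finset.mem_Icc, Finset.mem_Ico]; omega
  rw [h1, h2, ← Finset.sum_Ico_consecutive _ hM (Nat.le_add_right M L), add_sub_cancel_left,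
    Finset.sum_Ico_eq_sum_range, Nat.add_sub_cancel_left]

lemma zpow_re (x : ℝ) (n : ℕ) :
    ((Complex.exp (x * Complex.I)) ^ n).re = Real.cos (n * x) ∧
    ((Complex.exp (x * Complex.I)) ^ n).im = Real.sin (n * x) := by
  rw [← Complex.exp_nat_mul, show (n : ℂ) * (x * Complex.I) = ((n * x : ℝ) : ℂ) * Complex.I by
    push_cast; ring]
  exact ⟨Complex.exp_ofReal_mul_I_re _, Complex.exp_ofReal_mul_I_im _⟩

lemma block_re (p : ℕ → ℝ) (x : ℝ) (M L : ℕ) :
    ((Complex.exp (x * Complex.I)) ^ M *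
      ∑ k ∈ range L, (p k : ℂ) * (Complex.exp (x * Complex.I)) ^ k).re =
      ∑ k ∈ range L, p k * Real.cos ((M + k : ℕ) * x) := by
  rw [Finset.mul_sum, Complex.re_sum]
  apply Finset.sum_congr rfl
  intro k _
  rw [show (Complex.exp (x * Complex.I)) ^ M * ((p k : ℂ) * (Complex.exp (x * Complex.I)) ^ k) =
    (p k : ℂ) * (Complex.exp (x * Complex.I)) ^ (M + k) by rw [pow_add]; ring,
    Complex.re_ofReal_mul, (zpow_re x (M + k)).1]

lemma block_im (p : ℕ → ℝ) (x : ℝ) (M L : ℕ) :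
    ((Complex.exp (x * Complex.I)) ^ M *
      ∑ k ∈ range L, (p k : ℂ) * (Complex.exp (x * Complex.I)) ^ k).im =
      ∑ k ∈ range L, p k * Real.sin ((M + k : ℕ) * x) := by
  rw [Finset.mul_sum, Complex.im_sum]
  apply Finset.sum_congr rfl
  intro k _
  rw [show (Complex.exp (x * Complex.I)) ^ M * ((p k : ℂ) * (Complex.exp (x * Complex.I)) ^ k) =
    (p k : ℂ) * (Complex.exp (x * Complex.I)) ^ (M + k) by rw [pow_add]; ring,
    Complex.im_ofReal_mul, (zpow_re x (M + k)).2]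

lemma idx (m j k : ℕ) (hj : 8 ≤ j) (hj' : j < 16) (hk : k < 2 ^ m) :
    Nat.log 2 (2 ^ m * j + k) - 3 = m ∧ (2 ^ m * j + k) / 2 ^ m = j ∧
      (2 ^ m * j + k) % 2 ^ m = k := by
  have hpos : 0 < 2 ^ m := by positivity
  refine ⟨?_, ?_, ?_⟩
  · have : Nat.log 2 (2 ^ m * j + k) = m + 3 := by
      apply Nat.log_eq_of_pow_le_of_lt_pow
      · rw [pow_add]; nlinarith
      · rw [pow_add, pow_add]; nlinarith
    omega
  · rw [Nat.mul_add_div hpos, Nat.div_eq_of_lt hk, add_zero]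
  · rw [Nat.mul_add_mod, Nat.mod_eq_of_lt hk]

/-- the cosine coefficients -/
noncomputable def cA (p q : ℕ → ℕ → ℝ) (ρ : ℕ → ℝ) (n : ℕ) : ℝ :=
  if 8 ≤ n then
    (ρ (Nat.log 2 n - 3) / √(2 ^ (Nat.log 2 n - 3))) *
      (if n / 2 ^ (Nat.log 2 n - 3) = 8 ∨ n / 2 ^ (Nat.log 2 n - 3) = 9 then
        p (Nat.log 2 n - 3) (n % 2 ^ (Nat.log 2 n - 3))
      else if n / 2 ^ (Nat.log 2 n - 3) = 11 ∨ n / 2 ^ (Nat.log 2 n - 3) = 12 then
        q (Nat.log 2 n - 3) (n % 2 ^ (Nat.log 2 n - 3)) else 0)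
  else 0

/-- the sine coefficients -/
noncomputable def cB (p q : ℕ → ℕ → ℝ) (ρ : ℕ → ℝ) (n : ℕ) : ℝ :=
  if 8 ≤ n then
    (ρ (Nat.log 2 n - 3) / √(2 ^ (Nat.log 2 n - 3))) *
      (if n / 2 ^ (Nat.log 2 n - 3) = 10 then
        p (Nat.log 2 n - 3) (n % 2 ^ (Nat.log 2 n - 3))
      else if n / 2 ^ (Nat.log 2 n - 3) = 13 then
        q (Nat.log 2 n - 3) (n % 2 ^ (Nat.log 2 n - 3)) else 0)
  else 0

lemma cA_eval (p q : ℕ → ℕ → ℝ) (ρ : ℕ → ℝ) (m j k : ℕ) (hj : 8 ≤ j) (hj' : j < 16)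
    (hk : k < 2 ^ m) : cA p q ρ (2 ^ m * j + k) = (ρ m / √(2 ^ m)) *
      (if j = 8 ∨ j = 9 then p m k else if j = 11 ∨ j = 12 then q m k else 0) := by
  obtain ⟨h1, h2, h3⟩ := idx m j k hj hj' hk
  have h8 : 8 ≤ 2 ^ m * j + k := by
    have : 0 < 2 ^ m := by positivity
    nlinarith
  unfold cA
  rw [if_pos h8, h1, h2, h3]

lemma cB_eval (p q : ℕ → ℕ → ℝ) (ρ : ℕ → ℝ) (m j k : ℕ) (hj : 8 ≤ j) (hj' : j < 16)
    (hk : k < 2 ^ m) : cB p q ρ (2 ^ m * j + k) = (ρ m / √(2 ^ m)) *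
      (if j = 10 then p m k else if j = 13 then q m k else 0) := by
  obtain ⟨h1, h2, h3⟩ := idx m j k hj hj' hk
  have h8 : 8 ≤ 2 ^ m * j + k := by
    have : 0 < 2 ^ m := by positivity
    nlinarith
  unfold cB
  rw [if_pos h8, h1, h2, h3]

/-- a cosine block -/
lemma blockC (a b : ℕ → ℝ) (p : ℕ → ℝ) (r : ℝ) (x : ℝ) (m j : ℕ) (hj : 8 ≤ j)
    (ha : ∀ k < 2 ^ m, a (2 ^ m * j + k) = r * p k) (hb : ∀ k < 2 ^ m, b (2 ^ m * j + k) = 0) :
    S a b (2 ^ m * j + 2 ^ m - 1) x - S a b (2 ^ m * j - 1) x =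
      r * ((Complex.exp (x * Complex.I)) ^ (2 ^ m * j) *
      ∑ k ∈ range (2 ^ m), (p k : ℂ) * (Complex.exp (x * Complex.I)) ^ k).re := by
  have h1 : 1 ≤ 2 ^ m * j := by
    have : 0 < 2 ^ m := by positivity
    nlinarith
  rw [S_sub a b _ _ h1, block_re, Finset.mul_sum]
  apply Finset.sum_congr rfl
  intro k hk
  rw [ha k (Finset.mem_range.mp hk), hb k (Finset.mem_range.mp hk)]
  ring

/-- a sine block -/
lemma blockS (a b : ℕ → ℝ) (p : ℕ → ℝ) (r : ℝ) (x : ℝ) (m j : ℕ) (hj : 8 ≤ j)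
    (ha : ∀ k < 2 ^ m, a (2 ^ m * j + k) = 0) (hb : ∀ k < 2 ^ m, b (2 ^ m * j + k) = r * p k) :
    S a b (2 ^ m * j + 2 ^ m - 1) x - S a b (2 ^ m * j - 1) x =
      r * ((Complex.exp (x * Complex.I)) ^ (2 ^ m * j) *
      ∑ k ∈ range (2 ^ m), (p k : ℂ) * (Complex.exp (x * Complex.I)) ^ k).im := by
  have h1 : 1 ≤ 2 ^ m * j := by
    have : 0 < 2 ^ m := by positivity
    nlinarith
  rw [S_sub a b _ _ h1, block_im, Finset.mul_sum]
  apply Finset.sum_congr rfl
  intro k hk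
  rw [ha k (Finset.mem_range.mp hk), hb k (Finset.mem_range.mp hk)]
  ring

/-- The construction with block amplitudes `ρ m`. -/
lemma main (ρ : ℕ → ℝ) (hρ : ∀ m, 0 ≤ ρ m) : ∃ a b : ℕ → ℝ,
    (∀ n < 8, a n = 0 ∧ b n = 0) ∧
    (∀ n ≥ 8, |a n| ≤ ρ (Nat.log 2 n - 3) / √(2 ^ (Nat.log 2 n - 3)) ∧
      |b n| ≤ ρ (Nat.log 2 n - 3) / √(2 ^ (Nat.log 2 n - 3))) ∧
    ∀ (m : ℕ) (x : ℝ), ∃ M N : ℕ, 2 ^ m ≤ M ∧ 2 ^ m ≤ N ∧
      3 / 10 * ρ m ≤ |S a b N x - S a b M x| := by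
  choose p q hp hq hpq using rs
  refine ⟨cA p q ρ, cB p q ρ, ?_, ?_, ?_⟩
  · intro n hn
    unfold cA cB
    rw [if_neg (by omega), if_neg (by omega)]
    exact ⟨rfl, rfl⟩
  · intro n hn
    have h0 : 0 ≤ ρ (Nat.log 2 n - 3) / √(2 ^ (Nat.log 2 n - 3)) :=
      div_nonneg (hρ _) (Real.sqrt_nonneg _)
    unfold cA cB
    rw [if_pos hn, if_pos hn, abs_mul, abs_mul, abs_of_nonneg h0]
    constructor
    · refine (mul_le_mul_of_nonneg_left ?_ h0).trans_eq (mul_one _)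
      split_ifs
      · exact hp _ _
      · exact hq _ _
      · simp
    · refine (mul_le_mul_of_nonneg_left ?_ h0).trans_eq (mul_one _)
      split_ifs
      · exact hp _ _
      · exact hq _ _
      · simp
  · intro m x
    by_contra hcon
    push Not at hcon
    have hL : 0 < 2 ^ m := by positivity
    have hsq : 0 < √((2 : ℝ) ^ m) := by positivity
    -- all block sums are small
    have hbl : ∀ j, 8 ≤ j → |S (cA p q ρ) (cB p q ρ) (2 ^ m * j + 2 ^ m - 1) x -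
        S (cA p q ρ) (cB p q ρ) (2 ^ m * j - 1) x| < 3 / 10 * ρ m := by
      intro j hj
      apply hcon
      · have : 2 ^ m * 8 ≤ 2 ^ m * j := Nat.mul_le_mul_left _ hj
        omega
      · have : 2 ^ m * 8 ≤ 2 ^ m * j := Nat.mul_le_mul_left _ hj
        omega
    have hρpos : 0 < ρ m := by
      have := (abs_nonneg _).trans_lt (hbl 8 le_rfl)
      linarith
    set r := ρ m / √((2 : ℝ) ^ m) with hr
    have hrpos : 0 < r := div_pos hρpos hsq
    have conv : ∀ t : ℝ, |r * t| < 3 / 10 * ρ m → |t| ≤ 3 / 10 * √((2 : ℝ) ^ m) := by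
      intro t ht
      rw [abs_mul, abs_of_pos hrpos] at ht
      have e : 3 / 10 * ρ m = r * (3 / 10 * √((2 : ℝ) ^ m)) := by
        rw [hr]; field_simp
      rw [e] at ht
      exact (lt_of_mul_lt_mul_left ht hrpos.le).le
    set z := Complex.exp (x * Complex.I) with hz
    have hz1 : ‖z‖ = 1 := Complex.norm_exp_ofReal_mul_I x
    set P := ∑ k ∈ range (2 ^ m), (p m k : ℂ) * z ^ k with hP
    set Q := ∑ k ∈ range (2 ^ m), (q m k : ℂ) * z ^ k with hQ
    have c8 : |(z ^ (2 ^ m * 8) * P).re| ≤ 3 / 10 * √((2 : ℝ) ^ m) := by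
      apply conv
      rw [← blockC (cA p q ρ) (cB p q ρ) (p m) r x m 8 (by norm_num)
        (fun k hk => by rw [cA_eval p q ρ m 8 k (by norm_num) (by norm_num) hk]; simp [hr])
        (fun k hk => by rw [cB_eval p q ρ m 8 k (by norm_num) (by norm_num) hk]; simp)]
      exact hbl 8 (by norm_num)
    have c9 : |(z ^ (2 ^ m * 9) * P).re| ≤ 3 / 10 * √((2 : ℝ) ^ m) := by
      apply conv
      rw [← blockC (cA p q ρ) (cB p q ρ) (p m) r x m 9 (by norm_num)
        (fun k hk => by rw [cA_eval p q ρ m 9 k (by norm_num) (by norm_num) hk]; simp [hr])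
        (fun k hk => by rw [cB_eval p q ρ m 9 k (by norm_num) (by norm_num) hk]; simp)]
      exact hbl 9 (by norm_num)
    have c10 : |(z ^ (2 ^ m * 10) * P).im| ≤ 3 / 10 * √((2 : ℝ) ^ m) := by
      apply conv
      rw [← blockS (cA p q ρ) (cB p q ρ) (p m) r x m 10 (by norm_num)
        (fun k hk => by rw [cA_eval p q ρ m 10 k (by norm_num) (by norm_num) hk]; simp)
        (fun k hk => by rw [cB_eval p q ρ m 10 k (by norm_num) (by norm_num) hk]; simp [hr])]
      exact hbl 10 (by norm_num)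
    have c11 : |(z ^ (2 ^ m * 11) * Q).re| ≤ 3 / 10 * √((2 : ℝ) ^ m) := by
      apply conv
      rw [← blockC (cA p q ρ) (cB p q ρ) (q m) r x m 11 (by norm_num)
        (fun k hk => by rw [cA_eval p q ρ m 11 k (by norm_num) (by norm_num) hk]; simp [hr])
        (fun k hk => by rw [cB_eval p q ρ m 11 k (by norm_num) (by norm_num) hk]; simp)]
      exact hbl 11 (by norm_num)
    have c12 : |(z ^ (2 ^ m * 12) * Q).re| ≤ 3 / 10 * √((2 : ℝ) ^ m) := by
      apply conv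
      rw [← blockC (cA p q ρ) (cB p q ρ) (q m) r x m 12 (by norm_num)
        (fun k hk => by rw [cA_eval p q ρ m 12 k (by norm_num) (by norm_num) hk]; simp [hr])
        (fun k hk => by rw [cB_eval p q ρ m 12 k (by norm_num) (by norm_num) hk]; simp)]
      exact hbl 12 (by norm_num)
    have c13 : |(z ^ (2 ^ m * 13) * Q).im| ≤ 3 / 10 * √((2 : ℝ) ^ m) := by
      apply conv
      rw [← blockS (cA p q ρ) (cB p q ρ) (q m) r x m 13 (by norm_num)
        (fun k hk => by rw [cA_eval p q ρ m 13 k (by norm_num) (by norm_num) hk]; simp)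
        (fun k hk => by rw [cB_eval p q ρ m 13 k (by norm_num) (by norm_num) hk]; simp [hr])]
      exact hbl 13 (by norm_num)
    have hw1 : ‖z ^ (2 ^ m)‖ = 1 := by rw [norm_pow, hz1, one_pow]
    have kP := key (z ^ (2 ^ m * 8) * P) (z ^ (2 ^ m)) hw1 _ c8
      (by rw [show z ^ (2 ^ m) * (z ^ (2 ^ m * 8) * P) = z ^ (2 ^ m * 9) * P by ring]; exact c9)
      (by rw [show (z ^ (2 ^ m)) ^ 2 * (z ^ (2 ^ m * 8) * P) = z ^ (2 ^ m * 10) * P by ring]
          exact c10)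
    have kQ := key (z ^ (2 ^ m * 11) * Q) (z ^ (2 ^ m)) hw1 _ c11
      (by rw [show z ^ (2 ^ m) * (z ^ (2 ^ m * 11) * Q) = z ^ (2 ^ m * 12) * Q by ring]; exact c12)
      (by rw [show (z ^ (2 ^ m)) ^ 2 * (z ^ (2 ^ m * 11) * Q) = z ^ (2 ^ m * 13) * Q by ring]
          exact c13)
    have n8 : ‖z ^ (2 ^ m * 8) * P‖ = ‖P‖ := by rw [norm_mul, norm_pow, hz1, one_pow, one_mul]
    have n11 : ‖z ^ (2 ^ m * 11) * Q‖ = ‖Q‖ := by rw [norm_mul, norm_pow, hz1, one_pow, one_mul]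
    rw [n8, mul_pow, Real.sq_sqrt (by positivity)] at kP
    rw [n11, mul_pow, Real.sq_sqrt (by positivity)] at kQ
    have hsum := hpq m z hz1
    rw [← hP, ← hQ, pow_succ (2 : ℝ) m] at hsum
    have h2m : (0 : ℝ) < 2 ^ m := by positivity
    nlinarith

/-- summability from the size of the coefficients -/
lemma summ (a : ℕ → ℝ) (h0 : a 0 = 0) (C : ℝ) (hC : 0 ≤ C)
    (h : ∀ n : ℕ, 1 ≤ n → |a n| ≤ C * (1 + Real.log n) / √n) (ε : ℝ) (hε : 0 < ε) :
    Summable fun n : ℕ => |a n| ^ (2 + ε) := by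
  set δ : ℝ := ε / (4 * (2 + ε)) with hδ
  have hδ0 : 0 < δ := by positivity
  have hexp : (δ - 1 / 2) * (2 + ε) = -(1 + ε / 4) := by
    rw [hδ]; field_simp; ring
  have hb : Summable fun n : ℕ => (C * (1 + 1 / δ)) ^ (2 + ε) * (n : ℝ) ^ (-(1 + ε / 4)) :=
    (Real.summable_nat_rpow.mpr (by linarith)).mul_left _
  refine Summable.of_nonneg_of_le (fun n => by positivity) (fun n => ?_) hb
  rcases Nat.eq_zero_or_pos n with rfl | hn
  · rw [h0, abs_zero, Real.zero_rpow (by linarith)]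
    positivity
  · have hn1 : (1 : ℝ) ≤ n := by exact_mod_cast hn
    have hn0 : (0 : ℝ) < n := by linarith
    have h1 : |a n| ≤ C * (1 + 1 / δ) * (n : ℝ) ^ (δ - 1 / 2) := by
      refine (h n hn).trans ?_
      rw [Real.sqrt_eq_rpow, div_eq_mul_inv, ← Real.rpow_neg hn0.le,
        show δ - 1 / 2 = δ + -(1 / 2) by ring, Real.rpow_add hn0, ← mul_assoc]
      refine mul_le_mul_of_nonneg_right ?_ (by positivity)
      rw [mul_assoc]
      refine mul_le_mul_of_nonneg_left ?_ hC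
      have h2 := Real.log_le_rpow_div hn0.le hδ0
      have h3 : (1 : ℝ) ≤ (n : ℝ) ^ δ := Real.one_le_rpow hn1 hδ0.le
      calc 1 + Real.log n ≤ (n : ℝ) ^ δ + (n : ℝ) ^ δ / δ := add_le_add h3 h2
        _ = (1 + 1 / δ) * (n : ℝ) ^ δ := by ring
    calc |a n| ^ (2 + ε) ≤ (C * (1 + 1 / δ) * (n : ℝ) ^ (δ - 1 / 2)) ^ (2 + ε) :=
          Real.rpow_le_rpow (abs_nonneg _) h1 (by linarith)
      _ = (C * (1 + 1 / δ)) ^ (2 + ε) * (n : ℝ) ^ (-(1 + ε / 4)) := by
          rw [Real.mul_rpow (by positivity) (by positivity), ← Real.rpow_mul hn0.le, hexp]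

/-- size of the block amplitude in terms of the frequency -/
lemma amp (n : ℕ) (hn : 8 ≤ n) (t : ℝ) (ht : 0 ≤ t) :
    t / √(2 ^ (Nat.log 2 n - 3)) ≤ 4 * t / √n := by
  have h1 : n < 2 ^ (Nat.log 2 n + 1) := Nat.lt_pow_succ_log_self (by norm_num) n
  have h3 : 3 ≤ Nat.log 2 n := by
    calc 3 = Nat.log 2 8 := by norm_num [Nat.log]
      _ ≤ Nat.log 2 n := Nat.log_mono_right hn
  have h2 : 2 ^ (Nat.log 2 n + 1) = 16 * 2 ^ (Nat.log 2 n - 3) := by
    rw [show Nat.log 2 n + 1 = (Nat.log 2 n - 3) + 4 by omega, pow_add]; ring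
  have h4 : (n : ℝ) ≤ 16 * 2 ^ (Nat.log 2 n - 3) := by
    rw [h2] at h1
    exact_mod_cast h1.le
  have h5 : √(n : ℝ) ≤ 4 * √(2 ^ (Nat.log 2 n - 3)) := by
    calc √(n : ℝ) ≤ √(16 * 2 ^ (Nat.log 2 n - 3)) := Real.sqrt_le_sqrt h4
      _ = 4 * √(2 ^ (Nat.log 2 n - 3)) := by
        rw [Real.sqrt_mul (by norm_num), show (16 : ℝ) = 4 ^ 2 by norm_num,
          Real.sqrt_sq (by norm_num)]
  have hn0 : (0 : ℝ) < √n := Real.sqrt_pos.mpr (by exact_mod_cast (by omega : 0 < n))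
  have h6 : (0 : ℝ) < √(2 ^ (Nat.log 2 n - 3)) := Real.sqrt_pos.mpr (by positivity)
  rw [div_le_div_iff₀ h6 hn0]
  nlinarith

/-- **Orlicz's problem: the answer is yes.** There is a real trigonometric series
`∑ (a_n cos nx + b_n sin nx)` which diverges at every real `x` and whose coefficients satisfy
`∑ (|a_n|^(2+ε) + |b_n|^(2+ε)) < ∞` for every `ε > 0`; in fact `|a_n|, |b_n| ≤ 4 / √n` for all
`n ≥ 1`, and at every `x` the partial sums oscillate by at least `3/10` beyond every index. -/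
theorem result :
    ∃ a b : ℕ → ℝ,
      (∀ n : ℕ, 1 ≤ n → |a n| ≤ 4 / √n ∧ |b n| ≤ 4 / √n) ∧
      (∀ ε : ℝ, 0 < ε → Summable fun n : ℕ => |a n| ^ (2 + ε) + |b n| ^ (2 + ε)) ∧
      (∀ x : ℝ, ∀ K : ℕ, ∃ M N : ℕ, K ≤ M ∧ K ≤ N ∧ 3 / 10 ≤
        |∑ n ∈ Finset.Icc 1 N, (a n * Real.cos (n * x) + b n * Real.sin (n * x)) -
          ∑ n ∈ Finset.Icc 1 M, (a n * Real.cos (n * x) + b n * Real.sin (n * x))|) ∧
      ∀ x : ℝ, ¬ ∃ L : ℝ, Tendsto (fun N : ℕ =>
        ∑ n ∈ Finset.Icc 1 N, (a n * Real.cos (n * x) + b n * Real.sin (n * x))) atTop (𝓝 L) := by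
  obtain ⟨a, b, h0, h1, h2⟩ := main (fun _ => 1) (fun _ => zero_le_one)
  have hab : ∀ n : ℕ, 1 ≤ n → |a n| ≤ 4 / √n ∧ |b n| ≤ 4 / √n := by
    intro n hn
    rcases lt_or_ge n 8 with h8 | h8
    · rw [(h0 n h8).1, (h0 n h8).2, abs_zero]
      exact ⟨by positivity, by positivity⟩
    · have := amp n h8 1 zero_le_one
      rw [mul_one] at this
      exact ⟨(h1 n h8).1.trans this, (h1 n h8).2.trans this⟩
  have hlog : ∀ n : ℕ, 1 ≤ n → (4 : ℝ) / √n ≤ 4 * (1 + Real.log n) / √n := by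
    intro n hn
    have : 0 ≤ Real.log n := Real.log_natCast_nonneg n
    apply div_le_div_of_nonneg_right _ (Real.sqrt_nonneg _)
    linarith
  have hosc : ∀ x : ℝ, ∀ K : ℕ, ∃ M N : ℕ, K ≤ M ∧ K ≤ N ∧ 3 / 10 ≤
      |∑ n ∈ Finset.Icc 1 N, (a n * Real.cos (n * x) + b n * Real.sin (n * x)) -
        ∑ n ∈ Finset.Icc 1 M, (a n * Real.cos (n * x) + b n * Real.sin (n * x))| := by
    intro x K
    obtain ⟨M, N, hM, hN, h⟩ := h2 K x
    have hK : K < 2 ^ K := Nat.lt_two_pow_self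
    exact ⟨M, N, by omega, by omega, by simpa [S] using h⟩
  refine ⟨a, b, hab, ?_, hosc, ?_⟩
  · intro ε hε
    exact (summ a (h0 0 (by norm_num)).1 4 (by norm_num)
        (fun n hn => (hab n hn).1.trans (hlog n hn)) ε hε).add
      (summ b (h0 0 (by norm_num)).2 4 (by norm_num)
        (fun n hn => (hab n hn).2.trans (hlog n hn)) ε hε)
  · rintro x ⟨L, hL⟩
    obtain ⟨K, hK⟩ := Metric.tendsto_atTop.mp hL (1 / 10) (by norm_num)
    obtain ⟨M, N, hM, hN, h⟩ := hosc x K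
    have e1 := hK M hM
    have e2 := hK N hN
    rw [Real.dist_eq] at e1 e2
    have := abs_sub_le
      (∑ n ∈ Finset.Icc 1 N, (a n * Real.cos (n * x) + b n * Real.sin (n * x))) L
      (∑ n ∈ Finset.Icc 1 M, (a n * Real.cos (n * x) + b n * Real.sin (n * x)))
    rw [abs_sub_comm L] at this
    linarith

end Pool.Agent.Results.MP_85199e_an.EverywhereDivergent
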